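import Pool.Agent.H148.SF.Sun

/-!
# The slice rank method and gcd-sunflowers

By a theorem of the library the exponential bound for gcd-sunflower-free sets is equivalent to the
Erdős–Rado sunflower conjecture. For three sets there is a nontrivial bound from the slice rank
method (Naslund and Sawin): for the `D^k` integers `a(x) = ∏_t p_{t,x_t}`, `x ∈ [D]^k`, where the
`p_{t,c}` are distinct primes, there is a function `f` of three of them, invariant under the
permutations of the primes `p_{t,1}, ..., p_{t,D}` for each `t`, which vanishes except at the constant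
triples and the gcd-sunflowers, does not vanish at the constant triples, and has slice rank at most
`C^k (D-1)^{2k/3}`.

We show that this is the best possible, up to the factor `C^k`, and that for `r ≥ 4` every such
function has slice rank at least `(D-1)^k`. So the slice rank method with invariant functions gives
no bound `c^k` with `c` independent of `D`, for any `r ≥ 3`, and for `r ≥ 4` only the trivial bound
up to the replacement of `D` by `D - 1`.

Proof. The form defined by `f` is evaluated at products of functions supported on fewer than `r`
values in each coordinate, for which only the constant tuples contribute. It follows that it does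
not vanish on a product of irreducible representations of `S_D^k`, namely of spaces of functions of
the coordinates in a set `J` with sum zero in each of these coordinates; by Schur's lemma the
marginals are multiples of the scalar product, and such a form has full slice rank
(`H148/SF/Inv.lean`).
-/

set_option autoImplicit false

namespace Pool.Agent.Results.MP_47c51c_nt.SliceRankBarrier

open Finset Pool.Agent.H148.SR Pool.Agent.H148.SF

/-- **Slice rank barrier for gcd-sunflowers.** -/
theorem result (r k D : ℕ) (hD : 3 ≤ D) (p : Fin k → Fin D → ℕ) (hp : ∀ t c, (p t c).Prime)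
    (hinj : ∀ t c s e, p t c = p s e → t = s ∧ c = e)
    (f : (Fin r → (Fin k → Fin D)) → ℂ)
    (hinv : ∀ (π : Fin k → Equiv.Perm (Fin D)) (x : Fin r → (Fin k → Fin D)),
      f (fun j t => π t (x j t)) = f x)
    (hdiag : ∀ x, f (fun _ => x) ≠ 0)
    (hsupp : ∀ x, f x ≠ 0 → ∃ d : ℕ, ∀ i j, i ≠ j →
      Nat.gcd (∏ t, p t (x i t)) (∏ t, p t (x j t)) = d)
    (R : ℕ) (hR : SliceRankLE f R) :
    (4 ≤ r → (D - 1) ^ k ≤ R) ∧ (r = 3 → (D - 1) ^ (2 * (k / 3)) ≤ R) := by
  obtain ⟨d, rfl⟩ : ∃ d, D = d + 1 := ⟨D - 1, by omega⟩
  rw [Nat.add_sub_cancel]
  refine cube_bound (by omega) f ?_ (fun _ => ⟨0, by omega⟩) (hdiag _) ?_ R hR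
  · rintro g ⟨π, rfl⟩ x
    exact hinv π x
  · intro x hx t i j hij hxt l
    obtain ⟨e, he⟩ := hsupp x hx
    have hdvd : ∀ m : Fin r, p t (x i t) ∣ (∏ s, p s (x m s)) ↔ x m t = x i t := by
      intro m
      constructor
      · intro h
        obtain ⟨s, -, hs⟩ := ((hp t (x i t)).prime.dvd_finsetProd_iff _).mp h
        have h1 := (Nat.prime_dvd_prime_iff_eq (hp _ _) (hp _ _)).mp hs
        obtain ⟨h2, h3⟩ := hinj _ _ _ _ h1
        subst h2
        exact h3.symm
      · intro h
        rw [← h]
        exact dvd_prod_of_mem (fun s => p s (x m s)) (mem_univ t)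
    have h1 : p t (x i t) ∣ e := by
      rw [← he i j hij]
      exact Nat.dvd_gcd ((hdvd i).mpr rfl) ((hdvd j).mpr hxt.symm)
    by_cases hli : l = i
    · rw [hli]
    · apply (hdvd l).mp
      rw [← he l i hli] at h1
      exact h1.trans (Nat.gcd_dvd_left _ _)

end Pool.Agent.Results.MP_47c51c_nt.SliceRankBarrier
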